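import Pool.Agent.Helper15.TS.St

/-!
# Project TS (MP_434a84_lc), module LINE: the line lemma
-/

set_option autoImplicit false

namespace Pool.Agent.Helper51.TS

open Pool.Agent.Helper22.FL Pool.Agent.Helper22.CS Pool.Agent.Helper15.TS

/-- pigeonhole and Dickson's lemma for sequences of representations -/
private theorem wqo {n : ℕ} (R : Finset ((Fin n → ℕ) × Finset (Fin n → ℕ)))
    (r : ℕ → (Fin n → ℕ) × Finset (Fin n → ℕ)) (hr : ∀ i, r i ∈ R) (t : ℕ → (Fin n → ℕ) → ℕ) :
    ∃ i i', i < i' ∧ r i = r i' ∧ ∀ p ∈ (r i).2, t i p ≤ t i' p := by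
  classical
  have h1 : WellQuasiOrdered (fun a b : R => a = b) := Finite.wellQuasiOrdered _
  have h2 : WellQuasiOrdered (fun a b : (R.biUnion fun r => r.2) → ℕ => a ≤ b) :=
    wellQuasiOrdered_le
  obtain ⟨i, i', hlt, he, hle⟩ := (h1.prod h2) (fun i => (⟨r i, hr i⟩, fun p => t i p.1))
  refine ⟨i, i', hlt, congrArg Subtype.val he, fun p hp => ?_⟩
  exact hle ⟨p, Finset.mem_biUnion.2 ⟨r i, hr i, hp⟩⟩

/-- a difference of two representations whose coordinates outside `I` agree -/
private theorem diff_mem {n : ℕ} (P : Finset (Fin n → ℕ)) (c x y : Fin n → ℕ) (t t' : (Fin n → ℕ) → ℕ)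
    (I : Finset (Fin n)) (hx : x = c + ∑ p ∈ P, t p • p) (hy : y = c + ∑ p ∈ P, t' p • p)
    (hle : ∀ p ∈ P, t p ≤ t' p) (hI : ∀ j, j ∉ I → x j = y j) :
    toQ y - toQ x ∈ spQ (restr P I) := by
  have h1 : toQ y - toQ x = ∑ p ∈ P, ((t' p : ℚ) - t p) • toQ p := by
    funext j
    have ex : (x j : ℚ) = c j + ∑ p ∈ P, (t p : ℚ) * p j := by
      rw [hx]
      simp
    have ey : (y j : ℚ) = c j + ∑ p ∈ P, (t' p : ℚ) * p j := by
      rw [hy]
      simp
    have e1 : (toQ y - toQ x) j = (y j : ℚ) - x j := rfl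
    have e2 : (∑ p ∈ P, ((t' p : ℚ) - t p) • toQ p) j = ∑ p ∈ P, ((t' p : ℚ) - t p) * p j := by
      rw [Finset.sum_apply]
      rfl
    rw [e1, e2, ex, ey, add_sub_add_left_eq_sub, ← Finset.sum_sub_distrib]
    apply Finset.sum_congr rfl
    intro p _
    ring
  rw [h1]
  apply Submodule.sum_mem
  intro p hp
  by_cases he : t p = t' p
  · rw [he, sub_self, zero_smul]
    exact Submodule.zero_mem _
  · apply Submodule.smul_mem
    apply Submodule.subset_span
    refine ⟨p, ?_, rfl⟩
    have hlt : t p < t' p := lt_of_le_of_ne (hle p hp) he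
    show p ∈ ((restr P I : Finset (Fin n → ℕ)) : Set (Fin n → ℕ))
    unfold restr
    rw [Finset.mem_coe, Finset.mem_filter]
    refine ⟨hp, ?_⟩
    intro j hj
    by_contra hjI
    have h2 := hI j hjI
    rw [hx, hy] at h2
    simp only [Pi.add_apply, Finset.sum_apply, Pi.smul_apply, smul_eq_mul, add_right_inj] at h2
    have h3 : ∑ p ∈ P, t p * p j < ∑ p ∈ P, t' p * p j := by
      apply Finset.sum_lt_sum
      · intro q hq
        exact Nat.mul_le_mul_right _ (hle q hq)
      · refine ⟨p, hp, ?_⟩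
        have hpj : p j ≠ 0 := by
          unfold letters at hj
          exact (Finset.mem_filter.1 hj).2
        exact Nat.mul_lt_mul_of_pos_right hlt (Nat.pos_of_ne_zero hpj)
    omega

private theorem eval_out {n : ℕ} {I : Finset (Fin n)} {x : Fin n → ℕ} (h : letters x ⊆ I) {j : Fin n}
    (hj : j ∉ I) : x j = 0 := by
  by_contra hne
  apply hj
  apply h
  unfold letters
  exact Finset.mem_filter.2 ⟨Finset.mem_univ j, hne⟩

theorem stline : StLINE := by
  intro n S R hR I b v M w hM hv hw hS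
  have hrep : ∀ s i : ℕ, ∃ r ∈ R, b + M s • v + i • w s ∈ lin r.1 r.2 := fun s i =>
    (hR.2 _).1 (hS s i)
  -- first step
  have step1 : ∀ s : ℕ, ∃ r : (Fin n → ℕ) × Finset (Fin n → ℕ), r ∈ R ∧ ∃ (i : ℕ) (t : (Fin n → ℕ) → ℕ),
      b + M s • v + i • w s = r.1 + ∑ p ∈ r.2, t p • p ∧ toQ (w s) ∈ spQ (restr r.2 I) := by
    intro s
    choose r hr ht using hrep s
    choose t ht using ht
    obtain ⟨i, i', hlt, he, hle⟩ := wqo R r hr t
    refine ⟨r i, hr i, i, t i, ht i, ?_⟩
    have hy := ht i'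
    rw [← he] at hy
    have hmem := diff_mem (r i).2 (r i).1 _ _ (t i) (t i') I (ht i) hy hle (by
      intro j hj
      simp [eval_out (hw s) hj])
    have e1 : toQ (b + M s • v + i' • w s) - toQ (b + M s • v + i • w s) =
        ((i' : ℚ) - i) • toQ (w s) := by
      funext j
      simp only [toQ, Pi.sub_apply, Pi.add_apply, Pi.smul_apply, smul_eq_mul]
      push_cast
      ring
    rw [e1] at hmem
    have hne : ((i' : ℚ) - i) ≠ 0 := by
      have : (i : ℚ) < i' := by exact_mod_cast hlt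
      linarith
    exact (Submodule.smul_mem_iff _ hne).1 hmem
  choose r hr i t ht hmw using step1
  obtain ⟨s, s', hlt, he, hle⟩ := wqo R r hr t
  refine ⟨r s, hr s, s, i s, ⟨t s, ht s⟩, ?_, hmw s⟩
  have hy := ht s'
  rw [← he] at hy
  have hmem := diff_mem (r s).2 (r s).1 _ _ (t s) (t s') I (ht s) hy hle (by
    intro j hj
    simp [eval_out (hw s) hj, eval_out (hw s') hj, eval_out hv hj])
  have e1 : toQ (b + M s' • v + i s' • w s') - toQ (b + M s • v + i s • w s) =
      ((M s' : ℚ) - M s) • toQ v + ((i s' : ℚ) • toQ (w s') - (i s : ℚ) • toQ (w s)) := by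
    funext j
    simp only [toQ, Pi.sub_apply, Pi.add_apply, Pi.smul_apply, smul_eq_mul]
    push_cast
    ring
  rw [e1] at hmem
  have h1 : (i s' : ℚ) • toQ (w s') - (i s : ℚ) • toQ (w s) ∈ spQ (restr (r s).2 I) := by
    apply Submodule.sub_mem
    · apply Submodule.smul_mem
      rw [he]
      exact hmw s'
    · exact Submodule.smul_mem _ _ (hmw s)
  have h2 := (Submodule.add_mem_iff_left _ h1).1 hmem
  have hne : ((M s' : ℚ) - M s) ≠ 0 := by
    have : (M s : ℚ) < M s' := by exact_mod_cast hM hlt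
    linarith
  exact (Submodule.smul_mem_iff _ hne).1 h2

end Pool.Agent.Helper51.TS
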